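import Pool.Agent.Lib_helper54.MC.T12.Dat

/-!
# N = 12, special: small checks
-/

set_option autoImplicit false
set_option maxRecDepth 100000

namespace Pool.Agent.MC12t

open Pool.Agent.KC72 Pool.Agent.MC

theorem c12t_0 : NumX c12t c12t_t c12t_ll.length := by decide +kernel

theorem c12t_om : xm c12t.kb c12t.ko (c12t.m * c12t.N) c12t.Om = true := by decide +kernel

theorem c12t_b : cB c12t = true := by decide +kernel

theorem c12t_g : allI (fun c g => cG c12t.DG c12t_t.B c12t_t.MA c12t_t.P2 c12t_t.MB c g) c12t.G 0 = true := by decide +kernel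

theorem c12t_g' : c12t.toCert.chk3' = true := by decide +kernel

theorem c12t_k1 : (c12t.cls.take c12t.m).map (prF c12t_t.p c12t.n c12t.r) = c12t_t.PR := by decide +kernel

theorem c12t_k2 : (c12t.cls.take c12t.m).map (pkw (Int.ofNat c12t_t.Z) (Int.ofNat (Nat.pow c12t_t.Z c12t.n)) c12t.r) = c12t_t.PM := by decide +kernel

theorem c12t_k3 : c12t_t.P2.map (fun x => pmb (Int.ofNat c12t_t.B) x.1 x.2 (c12t.cls.take c12t.m)) = c12t_t.MB := by decide +kernel

theorem c12t_e : c12t.cls.all (fun e => bdE c12t_t.MA c12t.n e.1.2 && bdE c12t_t.MA c12t.n e.2.2) = true := by decide +kernel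

theorem c12t_xq : c12t_t.XQ.all (fun X => X.all (xm c12t_t.a c12t_t.d c12t_t.S)) = true := by decide +kernel

theorem c12t_xt : c12t_t.XT.all (fun X => X.all (xm c12t_t.a' c12t_t.d' c12t_t.K)) = true := by decide +kernel

theorem c12t_d0_0 : blk (cD c12t c12t_v0) c12t.Q 40 0 = true := by decide +kernel

theorem c12t_d0_1 : blk (cD c12t c12t_v0) c12t.Q 40 1 = true := by decide +kernel

theorem c12t_d0_2 : blk (cD c12t c12t_v0) c12t.Q 40 2 = true := by decide +kernel

theorem c12t_d0_3 : blk (cD c12t c12t_v0) c12t.Q 40 3 = true := by decide +kernel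

theorem c12t_d0_4 : blk (cD c12t c12t_v0) c12t.Q 40 4 = true := by decide +kernel

theorem c12t_d0_5 : blk (cD c12t c12t_v0) c12t.Q 40 5 = true := by decide +kernel

theorem c12t_d0_6 : blk (cD c12t c12t_v0) c12t.Q 40 6 = true := by decide +kernel

theorem c12t_d0_7 : blk (cD c12t c12t_v0) c12t.Q 40 7 = true := by decide +kernel

theorem c12t_d0_8 : blk (cD c12t c12t_v0) c12t.Q 40 8 = true := by decide +kernel

theorem c12t_d0_' : ∀ k < 9, blk (cD c12t c12t_v0) c12t.Q 40 k = true
  | 0, _ => c12t_d0_0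
  | 1, _ => c12t_d0_1
  | 2, _ => c12t_d0_2
  | 3, _ => c12t_d0_3
  | 4, _ => c12t_d0_4
  | 5, _ => c12t_d0_5
  | 6, _ => c12t_d0_6
  | 7, _ => c12t_d0_7
  | 8, _ => c12t_d0_8
  | k + 9, h => absurd h (by omega)

end Pool.Agent.MC12t
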