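import Pool.Agent.Lib_helper54.MC.T12.Dat

/-!
# N = 12, special: relations, second part
-/

set_option autoImplicit false
set_option maxRecDepth 100000

namespace Pool.Agent.MC12t

open Pool.Agent.KC72 Pool.Agent.MC

theorem c12t_r6 : blk (cR c12t) c12t.rels 60 6 = true := by decide +kernel

theorem c12t_r7 : blk (cR c12t) c12t.rels 60 7 = true := by decide +kernel

theorem c12t_r8 : blk (cR c12t) c12t.rels 60 8 = true := by decide +kernel

theorem c12t_r9 : blk (cR c12t) c12t.rels 60 9 = true := by decide +kernel

theorem c12t_r10 : blk (cR c12t) c12t.rels 60 10 = true := by decide +kernel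

theorem c12t_r11 : blk (cR c12t) c12t.rels 60 11 = true := by decide +kernel

end Pool.Agent.MC12t
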