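import Pool.Agent.Lib_helper54.MC.T12.Dat

/-!
# N = 12, special: the trivial relations
-/

set_option autoImplicit false
set_option maxRecDepth 100000

namespace Pool.Agent.MC12t

open Pool.Agent.KC72 Pool.Agent.MC

theorem c12t_t0 : blk (cT c12t c12t_t) c12t.T 40 0 = true := by decide +kernel

theorem c12t_t1 : blk (cT c12t c12t_t) c12t.T 40 1 = true := by decide +kernel

theorem c12t_t2 : blk (cT c12t c12t_t) c12t.T 40 2 = true := by decide +kernel

theorem c12t_t3 : blk (cT c12t c12t_t) c12t.T 40 3 = true := by decide +kernel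

theorem c12t_t4 : blk (cT c12t c12t_t) c12t.T 40 4 = true := by decide +kernel

theorem c12t_t5 : blk (cT c12t c12t_t) c12t.T 40 5 = true := by decide +kernel

theorem c12t_t6 : blk (cT c12t c12t_t) c12t.T 40 6 = true := by decide +kernel

theorem c12t_t7 : blk (cT c12t c12t_t) c12t.T 40 7 = true := by decide +kernel

theorem c12t_t8 : blk (cT c12t c12t_t) c12t.T 40 8 = true := by decide +kernel

theorem c12t_t9 : blk (cT c12t c12t_t) c12t.T 40 9 = true := by decide +kernel

theorem c12t_t' : ∀ k < 10, blk (cT c12t c12t_t) c12t.T 40 k = true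
  | 0, _ => c12t_t0
  | 1, _ => c12t_t1
  | 2, _ => c12t_t2
  | 3, _ => c12t_t3
  | 4, _ => c12t_t4
  | 5, _ => c12t_t5
  | 6, _ => c12t_t6
  | 7, _ => c12t_t7
  | 8, _ => c12t_t8
  | 9, _ => c12t_t9
  | k + 10, h => absurd h (by omega)

end Pool.Agent.MC12t
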