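import Pool.Agent.Lib_helper54.MC.T12.Dat

/-!
# N = 12, special: the explicit class
-/

set_option autoImplicit false
set_option maxRecDepth 100000

namespace Pool.Agent.MC12t

open Pool.Agent.KC72 Pool.Agent.MC

theorem c12t_x : allI (fun s L => cL c12t c12t_t (c12t_vl.getD s []) s L) c12t_ll 0 = true := by decide +kernel

end Pool.Agent.MC12t
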