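import Pool.Agent.Lib_helper54.MC.T12.Q
import Pool.Agent.Lib_helper54.MC.T12.T
import Pool.Agent.Lib_helper54.MC.T12.R1
import Pool.Agent.Lib_helper54.MC.T12.R2
import Pool.Agent.Lib_helper54.MC.T12.O
import Pool.Agent.Lib_helper54.MC.T12.X

/-!
# N = 12, special: all checks
-/

set_option autoImplicit false
set_option maxRecDepth 100000

namespace Pool.Agent.MC12t

open Pool.Agent.KC72 Pool.Agent.MC

theorem c12t_r' : ∀ k < 12, blk (cR c12t) c12t.rels 60 k = true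
  | 0, _ => c12t_r0
  | 1, _ => c12t_r1
  | 2, _ => c12t_r2
  | 3, _ => c12t_r3
  | 4, _ => c12t_r4
  | 5, _ => c12t_r5
  | 6, _ => c12t_r6
  | 7, _ => c12t_r7
  | 8, _ => c12t_r8
  | 9, _ => c12t_r9
  | 10, _ => c12t_r10
  | 11, _ => c12t_r11
  | k + 12, h => absurd h (by omega)

/-- all checks -/
theorem c12t_ok : ROkX c12t c12t_ll :=
  rOkX_of (A := c12t_t) (VL := c12t_vl) (l4 := 60) (n4 := 12) (lQ := 40) (nQ := 9) (lT := 40) (nT := 10) rfl c12t_0 c12t_om c12t_b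
    (by decide) (by decide +kernel) c12t_r' c12t_g c12t_g' ⟨c12t_k1, c12t_k2, c12t_k3⟩ c12t_e c12t_xq c12t_xt (by decide) (by decide +kernel) c12t_q'
    (by decide) (by decide +kernel) c12t_t' c12t_x
    (List.forall_mem_cons.2 ⟨c12t_d0_', (List.forall_mem_nil _)⟩)

end Pool.Agent.MC12t
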